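import Pool.Agent.N912.LC.Stm
import Pool.Agent.W78.GA.Basic

set_option autoImplicit false

/-!
# Project LC, part LC8: upper bound for the number of the factorisations `d e = n^2 + t n + c`
-/

namespace Pool.Agent.N814.LC8

open Finset
open Pool.Agent.W78.GA (Qd nm dt ip lat ball mem_ball nm_cast)
open Pool.Agent.N912.EP.W78EG (pp uc)
open Pool.Agent.N912.LC

/-- the number of the solutions of a linear congruence in an interval -/
theorem cnt {a b : ℤ} (ha : 0 < a) (g : ℕ) (hg : 1 ≤ g) (S : ℕ) :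
    (((Icc (-(S : ℤ)) S).filter (fun c => a ∣ b * c + g)).card : ℝ) ≤
      (2 * S + 1) * g / a + 1 := by
  have ha' : (0 : ℝ) < a := by exact_mod_cast ha
  rcases ((Icc (-(S : ℤ)) S).filter (fun c => a ∣ b * c + g)).eq_empty_or_nonempty with h | ⟨c0, h⟩
  · rw [h, card_empty, Nat.cast_zero]
    positivity
  · have h0 := (mem_filter.1 h).2
    obtain ⟨k, hk⟩ : ∃ k : ℕ, k = Int.gcd a b := ⟨_, rfl⟩
    have hkpos : 0 < k := by
      rw [hk]
      exact Int.gcd_pos_of_ne_zero_left _ ha.ne'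
    have hkZ : (0 : ℤ) < k := by exact_mod_cast hkpos
    obtain ⟨a', ha1⟩ : (k : ℤ) ∣ a := by rw [hk]; exact Int.gcd_dvd_left _ _
    obtain ⟨b', hb1⟩ : (k : ℤ) ∣ b := by rw [hk]; exact Int.gcd_dvd_right _ _
    have hcop : IsCoprime a' b' := by
      rw [Int.isCoprime_iff_gcd_eq_one]
      have h1 : Int.gcd a b = k * Int.gcd a' b' := by
        rw [ha1, hb1, Int.gcd_mul_left]
        simp
      rw [← hk] at h1
      exact Nat.eq_of_mul_eq_mul_left hkpos (by rw [← h1, mul_one])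
    have ha'pos : 0 < a' := by
      rw [ha1] at ha
      exact (mul_pos_iff_of_pos_left hkZ).1 ha
    have hkg : (k : ℤ) ∣ g := by
      have h1 : (k : ℤ) ∣ b * c0 + g := dvd_trans ⟨a', ha1⟩ h0
      have h2 : (k : ℤ) ∣ b * c0 := dvd_mul_of_dvd_left ⟨b', hb1⟩ _
      exact (dvd_add_right h2).1 h1
    have hkg' : k ≤ g := Nat.le_of_dvd hg (by exact_mod_cast hkg)
    have hsub : (Icc (-(S : ℤ)) S).filter (fun c => a ∣ b * c + g) ⊆
        (Ioc (-(S : ℤ) - 1) S).filter (fun c => c ≡ c0 [ZMOD a']) := by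
      intro c hc
      rw [mem_filter, mem_Icc] at hc
      rw [mem_filter, mem_Ioc]
      refine ⟨⟨by omega, by omega⟩, ?_⟩
      have h1 : a ∣ b * (c0 - c) := by
        have := dvd_sub h0 hc.2
        have e : b * c0 + g - (b * c + g) = b * (c0 - c) := by ring
        rwa [e] at this
      have h2 : a' ∣ b' * (c0 - c) := by
        rw [ha1, hb1, mul_assoc] at h1
        exact (mul_dvd_mul_iff_left hkZ.ne').1 h1
      exact (Int.modEq_iff_dvd.2 (hcop.dvd_of_dvd_mul_left h2))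
    have h1 := card_le_card hsub
    have h2 := Int.Ioc_filter_modEq_card (-(S : ℤ) - 1) S ha'pos c0
    have h3 : ((⌊(((S : ℤ) : ℚ) - c0) / (a' : ℚ)⌋ - ⌊(((-(S : ℤ) - 1 : ℤ) : ℚ) - c0) / (a' : ℚ)⌋ : ℤ) :
        ℚ) ≤ (2 * S + 1) / a' + 1 := by
      have f1 := Int.floor_le ((((S : ℤ) : ℚ) - c0) / (a' : ℚ))
      have f2 := Int.lt_floor_add_one ((((-(S : ℤ) - 1 : ℤ) : ℚ) - c0) / (a' : ℚ))
      push_cast at f1 f2 ⊢
      have haq : (0 : ℚ) < a' := by exact_mod_cast ha'pos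
      have f3 : ((S : ℚ) - c0) / a' - (-(S : ℚ) - 1 - c0) / a' = (2 * S + 1) / a' := by
        field_simp
        ring
      linarith
    have h4 : ((((Ioc (-(S : ℤ) - 1) S).filter (fun c => c ≡ c0 [ZMOD a'])).card : ℤ) : ℚ) ≤
        (2 * S + 1) / a' + 1 := by
      rw [h2]
      push_cast [max_def]
      split_ifs
      · have haq : (0 : ℚ) < a' := by exact_mod_cast ha'pos
        positivity
      · push_cast at h3
        exact h3
    have h5 : ((((Ioc (-(S : ℤ) - 1) S).filter (fun c => c ≡ c0 [ZMOD a'])).card : ℕ) : ℝ) ≤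
        (2 * S + 1) / a' + 1 := by
      have h6 : ((((((Ioc (-(S : ℤ) - 1) S).filter (fun c => c ≡ c0 [ZMOD a'])).card : ℕ) : ℚ) :
          ℚ) : ℝ) ≤ (((2 * S + 1) / a' + 1 : ℚ) : ℝ) := by
        exact_mod_cast h4
      push_cast at h6
      exact h6
    have ha'R : (0 : ℝ) < a' := by exact_mod_cast ha'pos
    have haR : (a : ℝ) = k * a' := by exact_mod_cast ha1
    have h7 : ((2 : ℝ) * S + 1) / a' ≤ (2 * S + 1) * g / a := by
      rw [div_le_div_iff₀ ha'R ha', haR]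
      have h8 : (k : ℝ) ≤ g := by exact_mod_cast hkg'
      have h9 : (0 : ℝ) ≤ (2 * S + 1) * a' := by positivity
      nlinarith [mul_le_mul_of_nonneg_left h8 h9]
    refine le_trans ?_ (h5.trans (by linarith))
    exact_mod_cast h1

/-- triples -/
noncomputable def TT (g s S : ℕ) : Finset (ℤ × ℤ × ℤ) :=
  (Icc (1 : ℤ) s).biUnion fun a => (Icc (-a) a).biUnion fun b =>
    ((Icc (-(S : ℤ)) S).filter (fun c => a ∣ b * c + g)).image (fun c => (a, b, c))

theorem TT_card (g s S : ℕ) (hg : 1 ≤ g) (hs : s ≤ S) (hS : 1 ≤ S) :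
    ((TT g s S).card : ℝ) ≤ 12 * g * s * S := by
  have hS' : (1 : ℝ) ≤ S := by exact_mod_cast hS
  have hs' : (s : ℝ) ≤ S := by exact_mod_cast hs
  have hg' : (1 : ℝ) ≤ g := by exact_mod_cast hg
  have h1 : ((TT g s S).card : ℝ) ≤ ∑ a ∈ Icc (1 : ℤ) s, (((Icc (-a) a).biUnion fun b =>
      ((Icc (-(S : ℤ)) S).filter (fun c => a ∣ b * c + g)).image
        (fun c => (a, b, c))).card : ℝ) := by
    unfold TT
    exact_mod_cast card_biUnion_le
  refine h1.trans ?_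
  have h2 : ∀ a ∈ Icc (1 : ℤ) s, (((Icc (-a) a).biUnion fun b =>
      ((Icc (-(S : ℤ)) S).filter (fun c => a ∣ b * c + g)).image
        (fun c => (a, b, c))).card : ℝ) ≤ 12 * g * S := by
    intro a ha
    rw [mem_Icc] at ha
    have ha0 : (0 : ℝ) < a := by exact_mod_cast (show (0 : ℤ) < a by omega)
    have ha1 : (1 : ℝ) ≤ a := by exact_mod_cast ha.1
    have haM : (a : ℝ) ≤ S := by
      have : (a : ℝ) ≤ s := by exact_mod_cast ha.2
      linarith
    have h3 : (((Icc (-a) a).biUnion fun b =>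
      ((Icc (-(S : ℤ)) S).filter (fun c => a ∣ b * c + g)).image
        (fun c => (a, b, c))).card : ℝ) ≤ ∑ b ∈ Icc (-a) a, ((((Icc (-(S : ℤ)) S).filter
          (fun c => a ∣ b * c + g)).image (fun c => (a, b, c))).card : ℝ) := by
      exact_mod_cast card_biUnion_le
    have h4 : ∀ b ∈ Icc (-a) a, ((((Icc (-(S : ℤ)) S).filter
          (fun c => a ∣ b * c + g)).image (fun c => (a, b, c))).card : ℝ) ≤
          4 * g * S / a := by
      intro b _
      have h5 : ((((Icc (-(S : ℤ)) S).filter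
          (fun c => a ∣ b * c + g)).image (fun c => (a, b, c))).card : ℝ) ≤
          (((Icc (-(S : ℤ)) S).filter (fun c => a ∣ b * c + g)).card : ℝ) := by
        exact_mod_cast card_image_le
      refine h5.trans ((cnt (by omega) g hg S).trans ?_)
      rw [div_add_one ha0.ne']
      refine div_le_div_of_nonneg_right ?_ ha0.le
      nlinarith
    refine h3.trans ((sum_le_sum h4).trans ?_)
    rw [sum_const, nsmul_eq_mul, Int.card_Icc]
    have h6 : (((a + 1 - -a).toNat : ℕ) : ℝ) = 2 * a + 1 := by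
      have : (((a + 1 - -a).toNat : ℕ) : ℤ) = 2 * a + 1 := by
        rw [Int.toNat_of_nonneg (by omega)]
        ring
      exact_mod_cast this
    rw [h6]
    rw [mul_div_assoc', div_le_iff₀ ha0]
    have h7 : (0 : ℝ) ≤ g * S := by positivity
    nlinarith [mul_le_mul_of_nonneg_left ha1 h7]
  refine (sum_le_sum h2).trans ?_
  rw [sum_const, nsmul_eq_mul, Int.card_Icc]
  have h7 : (((s : ℤ) + 1 - 1).toNat : ℝ) = s := by simp
  rw [h7]
  linarith

theorem mem_TT {g s S : ℕ} {a b e : ℤ} (ha : 0 < a) (hb : |b| ≤ a) (has : a.natAbs ≤ s)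
    (he : e.natAbs ≤ S) (h : a ∣ b * e + g) : (a, b, e) ∈ TT g s S := by
  unfold TT
  rw [mem_biUnion]
  refine ⟨a, mem_Icc.2 ⟨by omega, by omega⟩, ?_⟩
  rw [mem_biUnion]
  refine ⟨b, mem_Icc.2 (abs_le.1 hb), ?_⟩
  rw [mem_image]
  exact ⟨e, mem_filter.2 ⟨mem_Icc.2 ⟨by omega, by omega⟩, h⟩, rfl⟩

variable {t c : ℤ}

theorem bd (hD : t ^ 2 < 4 * c) (z : Qd t c) {Y : ℕ} (h : nm z ≤ Y) :
    z.re.natAbs ≤ Nat.sqrt (4 * c.natAbs * Y) ∧ z.im.natAbs ≤ Nat.sqrt (4 * c.natAbs * Y) := by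
  have hc : 1 ≤ c := by nlinarith [sq_nonneg t]
  have h1 := nm_cast hD z
  have hm' : (nm z : ℤ) ≤ Y := by exact_mod_cast h
  have hd0 : (0 : ℤ) ≤ nm z := by positivity
  have hf : 1 ≤ 4 * c - t ^ 2 := by omega
  constructor
  · rw [Nat.le_sqrt']
    have h3 : ((z.re.natAbs ^ 2 : ℕ) : ℤ) ≤ ((4 * c.natAbs * Y : ℕ) : ℤ) := by
      push_cast
      rw [sq_abs, abs_of_pos (show 0 < c by omega)]
      have h4 : 4 * c * (nm z : ℤ) = (2 * c * z.im + t * z.re) ^ 2 + (4 * c - t ^ 2) * z.re ^ 2 := by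
        rw [h1]
        ring
      have h5 : z.re ^ 2 ≤ (4 * c - t ^ 2) * z.re ^ 2 := by nlinarith [sq_nonneg z.re]
      have h6 : 4 * c * (nm z : ℤ) ≤ 4 * c * Y := by
        apply mul_le_mul_of_nonneg_left hm'
        omega
      nlinarith [sq_nonneg (2 * c * z.im + t * z.re)]
    exact_mod_cast h3
  · rw [Nat.le_sqrt']
    have h3 : ((z.im.natAbs ^ 2 : ℕ) : ℤ) ≤ ((4 * c.natAbs * Y : ℕ) : ℤ) := by
      push_cast
      rw [sq_abs, abs_of_pos (show 0 < c by omega)]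
      have h4 : 4 * (nm z : ℤ) = (2 * z.re + t * z.im) ^ 2 + (4 * c - t ^ 2) * z.im ^ 2 := by
        rw [h1]
        ring
      have h5 : z.im ^ 2 ≤ (4 * c - t ^ 2) * z.im ^ 2 := by nlinarith [sq_nonneg z.im]
      have h6 : (nm z : ℤ) ≤ c * Y := by nlinarith
      nlinarith [sq_nonneg (2 * z.re + t * z.im)]
    exact_mod_cast h3

/-- pairs of determinant `g` -/
theorem pairs_card (hD : t ^ 2 < 4 * c) (g : ℕ) (hg : 1 ≤ g) (Y₁ Y₂ : ℕ) (h12 : Y₁ ≤ Y₂)
    (hY : 1 ≤ Y₂) (A : Finset (Qd t c × Qd t c))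
    (hA : ∀ e ∈ A, nm e.1 ≤ Y₁ ∧ nm e.2 ≤ Y₂ ∧ dt e.1 e.2 = g) :
    (A.card : ℝ) ≤ 48 * g * (4 * c.natAbs) * Real.sqrt (Y₁ * Y₂) := by
  have hc : 1 ≤ c := by nlinarith [sq_nonneg t]
  obtain ⟨K, hK⟩ : ∃ K : ℕ, K = 4 * c.natAbs := ⟨_, rfl⟩
  have hK1 : 1 ≤ K := by omega
  obtain ⟨s, hs⟩ : ∃ s, s = Nat.sqrt (K * Y₁) := ⟨_, rfl⟩
  obtain ⟨S, hS⟩ : ∃ S, S = Nat.sqrt (K * Y₂) := ⟨_, rfl⟩
  have hsS : s ≤ S := by
    rw [hs, hS]
    exact Nat.sqrt_le_sqrt (Nat.mul_le_mul_left K h12)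
  have hS1 : 1 ≤ S := by
    rw [hS, Nat.le_sqrt']
    nlinarith
  have hb : ∀ e ∈ A, (e.1.re.natAbs ≤ s ∧ e.1.im.natAbs ≤ s) ∧ (e.2.re.natAbs ≤ S ∧
      e.2.im.natAbs ≤ S) ∧ e.1.re * e.2.im - e.1.im * e.2.re = g := by
    intro e he
    obtain ⟨h1, h2, h3⟩ := hA e he
    have b1 := bd hD e.1 h1
    have b2 := bd hD e.2 h2
    rw [← hK, ← hs] at b1
    rw [← hK, ← hS] at b2
    exact ⟨b1, b2, h3⟩
  have hg0 : (g : ℤ) ≠ 0 := by exact_mod_cast (by omega : g ≠ 0)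
  have c1 : (A.filter fun e => 0 < e.1.re ∧ |e.1.im| ≤ e.1.re).card ≤ (TT g s S).card := by
    refine card_le_card_of_injOn (fun e => (e.1.re, e.1.im, e.2.re)) ?_ ?_
    · intro e he
      obtain ⟨he, h1, h2⟩ := mem_filter.1 he
      obtain ⟨b1, b2, b3⟩ := hb e he
      exact mem_TT h1 h2 b1.1 b2.1 ⟨e.2.im, by linear_combination -b3⟩
    · intro e he e' he' h
      obtain ⟨he, h1, h2⟩ := mem_filter.1 he
      obtain ⟨he', h1', h2'⟩ := mem_filter.1 he'
      obtain ⟨b1, b2, b3⟩ := hb e he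
      obtain ⟨b1', b2', b3'⟩ := hb e' he'
      simp only [Prod.mk.injEq] at h
      obtain ⟨k1, k2, k3⟩ := h
      rw [← k1, ← k2, ← k3] at b3'
      have k4 : e.2.im = e'.2.im := by
        have : e.1.re * (e.2.im - e'.2.im) = 0 := by linear_combination b3 - b3'
        rcases mul_eq_zero.1 this with h | h
        · omega
        · omega
      exact Prod.ext (QuadraticAlgebra.ext k1 k2) (QuadraticAlgebra.ext k3 k4)
  have c2 : (A.filter fun e => e.1.re < 0 ∧ |e.1.im| ≤ -e.1.re).card ≤ (TT g s S).card := by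
    refine card_le_card_of_injOn (fun e => (-e.1.re, e.1.im, e.2.re)) ?_ ?_
    · intro e he
      obtain ⟨he, h1, h2⟩ := mem_filter.1 he
      obtain ⟨b1, b2, b3⟩ := hb e he
      exact mem_TT (by omega) h2 (by rw [Int.natAbs_neg]; exact b1.1) b2.1
        ⟨-e.2.im, by linear_combination -b3⟩
    · intro e he e' he' h
      obtain ⟨he, h1, h2⟩ := mem_filter.1 he
      obtain ⟨he', h1', h2'⟩ := mem_filter.1 he'
      obtain ⟨b1, b2, b3⟩ := hb e he
      obtain ⟨b1', b2', b3'⟩ := hb e' he'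
      simp only [Prod.mk.injEq] at h
      obtain ⟨k1, k2, k3⟩ := h
      have k1 : e.1.re = e'.1.re := by omega
      rw [← k1, ← k2, ← k3] at b3'
      have k4 : e.2.im = e'.2.im := by
        have : e.1.re * (e.2.im - e'.2.im) = 0 := by linear_combination b3 - b3'
        rcases mul_eq_zero.1 this with h | h
        · omega
        · omega
      exact Prod.ext (QuadraticAlgebra.ext k1 k2) (QuadraticAlgebra.ext k3 k4)
  have c3 : (A.filter fun e => 0 < e.1.im ∧ |e.1.re| ≤ e.1.im).card ≤ (TT g s S).card := by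
    refine card_le_card_of_injOn (fun e => (e.1.im, -e.1.re, e.2.im)) ?_ ?_
    · intro e he
      obtain ⟨he, h1, h2⟩ := mem_filter.1 he
      obtain ⟨b1, b2, b3⟩ := hb e he
      exact mem_TT h1 (by rwa [abs_neg]) b1.2 b2.2 ⟨-e.2.re, by linear_combination -b3⟩
    · intro e he e' he' h
      obtain ⟨he, h1, h2⟩ := mem_filter.1 he
      obtain ⟨he', h1', h2'⟩ := mem_filter.1 he'
      obtain ⟨b1, b2, b3⟩ := hb e he
      obtain ⟨b1', b2', b3'⟩ := hb e' he'
      simp only [Prod.mk.injEq] at h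
      obtain ⟨k2, k1, k3⟩ := h
      have k1 : e.1.re = e'.1.re := by omega
      rw [← k1, ← k2, ← k3] at b3'
      have k4 : e.2.re = e'.2.re := by
        have : e.1.im * (e.2.re - e'.2.re) = 0 := by linear_combination b3' - b3
        rcases mul_eq_zero.1 this with h | h
        · omega
        · omega
      exact Prod.ext (QuadraticAlgebra.ext k1 k2) (QuadraticAlgebra.ext k4 k3)
  have c4 : (A.filter fun e => e.1.im < 0 ∧ |e.1.re| ≤ -e.1.im).card ≤ (TT g s S).card := by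
    refine card_le_card_of_injOn (fun e => (-e.1.im, -e.1.re, e.2.im)) ?_ ?_
    · intro e he
      obtain ⟨he, h1, h2⟩ := mem_filter.1 he
      obtain ⟨b1, b2, b3⟩ := hb e he
      exact mem_TT (by omega) (by rwa [abs_neg]) (by rw [Int.natAbs_neg]; exact b1.2) b2.2
        ⟨e.2.re, by linear_combination -b3⟩
    · intro e he e' he' h
      obtain ⟨he, h1, h2⟩ := mem_filter.1 he
      obtain ⟨he', h1', h2'⟩ := mem_filter.1 he'
      obtain ⟨b1, b2, b3⟩ := hb e he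
      obtain ⟨b1', b2', b3'⟩ := hb e' he'
      simp only [Prod.mk.injEq] at h
      obtain ⟨k2, k1, k3⟩ := h
      have k1 : e.1.re = e'.1.re := by omega
      have k2 : e.1.im = e'.1.im := by omega
      rw [← k1, ← k2, ← k3] at b3'
      have k4 : e.2.re = e'.2.re := by
        have : e.1.im * (e.2.re - e'.2.re) = 0 := by linear_combination b3' - b3
        rcases mul_eq_zero.1 this with h | h
        · omega
        · omega
      exact Prod.ext (QuadraticAlgebra.ext k1 k2) (QuadraticAlgebra.ext k4 k3)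
  have hsub : A ⊆ (A.filter fun e => 0 < e.1.re ∧ |e.1.im| ≤ e.1.re) ∪
      (A.filter fun e => e.1.re < 0 ∧ |e.1.im| ≤ -e.1.re) ∪
      (A.filter fun e => 0 < e.1.im ∧ |e.1.re| ≤ e.1.im) ∪
      (A.filter fun e => e.1.im < 0 ∧ |e.1.re| ≤ -e.1.im) := by
    intro e he
    obtain ⟨-, -, b3⟩ := hb e he
    have hne : e.1.re ≠ 0 ∨ e.1.im ≠ 0 := by
      by_contra hcon
      push Not at hcon
      rw [hcon.1, hcon.2] at b3
      apply hg0
      linear_combination -b3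
    simp only [mem_union, mem_filter]
    rcases le_total |e.1.im| |e.1.re| with h | h
    · rcases lt_trichotomy e.1.re 0 with h0 | h0 | h0
      · rw [abs_of_neg h0] at h
        exact Or.inl (Or.inl (Or.inr ⟨he, h0, h⟩))
      · exfalso
        rw [h0, abs_zero] at h
        have := abs_eq_zero.1 (le_antisymm h (abs_nonneg _))
        tauto
      · rw [abs_of_pos h0] at h
        exact Or.inl (Or.inl (Or.inl ⟨he, h0, h⟩))
    · rcases lt_trichotomy e.1.im 0 with h0 | h0 | h0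
      · rw [abs_of_neg h0] at h
        exact Or.inr ⟨he, h0, h⟩
      · exfalso
        rw [h0, abs_zero] at h
        have := abs_eq_zero.1 (le_antisymm h (abs_nonneg _))
        tauto
      · rw [abs_of_pos h0] at h
        exact Or.inl (Or.inr ⟨he, h0, h⟩)
  have htot : A.card ≤ 4 * (TT g s S).card := by
    have h1 := card_le_card hsub
    have h2 := card_union_le ((A.filter fun e => 0 < e.1.re ∧ |e.1.im| ≤ e.1.re) ∪
      (A.filter fun e => e.1.re < 0 ∧ |e.1.im| ≤ -e.1.re) ∪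
      (A.filter fun e => 0 < e.1.im ∧ |e.1.re| ≤ e.1.im))
      (A.filter fun e => e.1.im < 0 ∧ |e.1.re| ≤ -e.1.im)
    have h3 := card_union_le ((A.filter fun e => 0 < e.1.re ∧ |e.1.im| ≤ e.1.re) ∪
      (A.filter fun e => e.1.re < 0 ∧ |e.1.im| ≤ -e.1.re))
      (A.filter fun e => 0 < e.1.im ∧ |e.1.re| ≤ e.1.im)
    have h4 := card_union_le (A.filter fun e => 0 < e.1.re ∧ |e.1.im| ≤ e.1.re)
      (A.filter fun e => e.1.re < 0 ∧ |e.1.im| ≤ -e.1.re)
    omega
  have h9 := TT_card g s S hg hsS hS1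
  have hsR : (s : ℝ) ≤ Real.sqrt (K * Y₁) := by
    have : (s : ℝ) ≤ Real.sqrt ((K * Y₁ : ℕ) : ℝ) := by
      rw [hs]
      exact Real.nat_sqrt_le_real_sqrt
    exact_mod_cast this
  have hSR : (S : ℝ) ≤ Real.sqrt (K * Y₂) := by
    have : (S : ℝ) ≤ Real.sqrt ((K * Y₂ : ℕ) : ℝ) := by
      rw [hS]
      exact Real.nat_sqrt_le_real_sqrt
    exact_mod_cast this
  have h10 : (s : ℝ) * S ≤ K * Real.sqrt (Y₁ * Y₂) := by
    have h11 : Real.sqrt (K * Y₁) * Real.sqrt (K * Y₂) = K * Real.sqrt (Y₁ * Y₂) := by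
      rw [← Real.sqrt_mul (by positivity)]
      have : (K : ℝ) * Y₁ * (K * Y₂) = (K : ℝ) ^ 2 * (Y₁ * Y₂) := by ring
      rw [this, Real.sqrt_mul (by positivity), Real.sqrt_sq (by positivity)]
    rw [← h11]
    exact mul_le_mul hsR hSR (by positivity) (by positivity)
  have hKr : (K : ℝ) = 4 * (c.natAbs : ℝ) := by rw [hK]; push_cast; ring
  rw [← hKr]
  have h12 : (A.card : ℝ) ≤ 4 * ((TT g s S).card : ℝ) := by exact_mod_cast htot
  have h13 : (0 : ℝ) ≤ g := by positivity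
  calc (A.card : ℝ) ≤ 4 * ((TT g s S).card : ℝ) := h12
    _ ≤ 4 * (12 * g * s * S) := by linarith
    _ = 48 * g * (s * S) := by ring
    _ ≤ 48 * g * (K * Real.sqrt (Y₁ * Y₂)) := by
        refine mul_le_mul_of_nonneg_left h10 (by positivity)
    _ = _ := by ring

/-- the triples with `gcd(d, e, 2 n + t) = 1` -/
theorem tp1_card (h6a : S_LC6a) (ht : t = 0 ∨ t = 1) (hD : t ^ 2 < 4 * c) : ∃ C : ℝ, 0 ≤ C ∧
    ∀ m M : ℕ, 1 ≤ m → m ≤ M →
      (((TP1 t c M).filter (fun y => y.1 ≤ m)).card : ℝ) ≤ C * Real.sqrt (m * M) := by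
  obtain ⟨W, hW, hG⟩ := h6a t c ht hD 1 le_rfl
  refine ⟨∑ x ∈ W, 48 * x.1 * (4 * c.natAbs) * (2 * x.1), by positivity, fun m M hm hmM => ?_⟩
  have h1 := hG M (fun d _ _ => if d ≤ m then 1 else 0)
  simp only [Finset.sum_boole] at h1
  have h2 : ∑ x ∈ W, (((DL t c x.1 x.2 M).filter (fun e => 0 < pp e.1 e.2)).filter
      (fun e => nm e.1 / x.1 ≤ m)).card = uc t c * ((TP1 t c M).filter (fun y => y.1 ≤ m)).card := by
    exact_mod_cast h1
  have huc : 1 ≤ uc t c := by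
    unfold uc
    apply Finset.card_pos.2
    refine ⟨1, (mem_ball hD).2 ?_⟩
    rw [Pool.Agent.W78.GA.nm_one]
    simp
  have h3 : (((TP1 t c M).filter (fun y => y.1 ≤ m)).card : ℝ) ≤
      ∑ x ∈ W, ((((DL t c x.1 x.2 M).filter (fun e => 0 < pp e.1 e.2)).filter
      (fun e => nm e.1 / x.1 ≤ m)).card : ℝ) := by
    have h4 : ((TP1 t c M).filter (fun y => y.1 ≤ m)).card ≤
        ∑ x ∈ W, (((DL t c x.1 x.2 M).filter (fun e => 0 < pp e.1 e.2)).filter
        (fun e => nm e.1 / x.1 ≤ m)).card := by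
      rw [h2]
      exact Nat.le_mul_of_pos_left _ huc
    exact_mod_cast h4
  refine h3.trans ?_
  rw [Finset.sum_mul]
  refine Finset.sum_le_sum fun x hx => ?_
  have hx1 : 1 ≤ x.1 := (hW x hx).1.pos
  have h5 := pairs_card hD x.1 hx1 (2 * x.1 * m) (2 * x.1 * M)
    (Nat.mul_le_mul_left _ hmM) (by nlinarith [hm.trans hmM])
    (((DL t c x.1 x.2 M).filter (fun e => 0 < pp e.1 e.2)).filter
      (fun e => nm e.1 / x.1 ≤ m)) (by
        intro e he
        obtain ⟨he, h6⟩ := mem_filter.1 he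
        obtain ⟨he, -⟩ := mem_filter.1 he
        unfold DL at he
        obtain ⟨he, -, -, h7⟩ := mem_filter.1 he
        obtain ⟨-, he2⟩ := mem_product.1 he
        have h8 := ((mem_ball hD).1 he2).2
        refine ⟨?_, ?_, h7⟩
        · have h9 := Nat.lt_succ_of_le h6
          rw [Nat.div_lt_iff_lt_mul (by omega)] at h9
          nlinarith
        · have h9 : nm e.2 ≤ x.1 * M := by exact_mod_cast h8
          nlinarith)
  refine h5.trans (le_of_eq ?_)
  have h10 : Real.sqrt (((2 * x.1 * m : ℕ) : ℝ) * ((2 * x.1 * M : ℕ) : ℝ)) =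
      2 * x.1 * Real.sqrt (m * M) := by
    push_cast
    have : (2 * (x.1 : ℝ) * m) * (2 * x.1 * M) = (2 * (x.1 : ℝ)) ^ 2 * (m * M) := by ring
    rw [this, Real.sqrt_mul (by positivity), Real.sqrt_sq (by positivity)]
  rw [h10]
  ring

lemma TP1_mono {X X' : ℝ} (h : X ≤ X') : TP1 t c X ⊆ TP1 t c X' := by
  have hf : ⌊X⌋₊ ≤ ⌊X'⌋₊ := Nat.floor_le_floor h
  intro y hy
  unfold TP1 TP at hy ⊢
  simp only [mem_filter, mem_product, mem_Icc, mem_range] at hy ⊢
  obtain ⟨⟨⟨h1, h2, h3⟩, h4⟩, h5⟩ := hy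
  exact ⟨⟨⟨⟨h1.1, by omega⟩, ⟨h2.1, by omega⟩, by omega⟩, h4⟩, h5⟩

/-- LC8 -/
theorem lc8 (h6a : S_LC6a) (h6b : S_LC6b) : S_LC8 := by
  intro t c ht hD
  obtain ⟨W, hW, hG⟩ := h6b t c ht hD
  have hC : ∀ y ∈ W, ∃ C : ℝ, 0 ≤ C ∧ ∀ m M : ℕ, 1 ≤ m → m ≤ M →
      (((TP1 y.2.1 y.2.2 M).filter (fun z => z.1 ≤ m)).card : ℝ) ≤ C * Real.sqrt (m * M) :=
    fun y hy => tp1_card h6a (hW y hy).2.1 (hW y hy).2.2.1
  choose! C hC0 hC using hC
  have key : ∀ m M : ℕ, 1 ≤ m → m ≤ M → (((TP t c M).filter (fun y => y.1 ≤ m)).card : ℝ) ≤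
      (∑ y ∈ W, C y) * Real.sqrt (m * M) := by
    intro m M hm hmM
    have h1 := hG M (fun d _ _ => if d ≤ m then 1 else 0)
    simp only [Finset.sum_boole] at h1
    have h2 : ((TP t c M).filter (fun y => y.1 ≤ m)).card =
        ∑ y ∈ W, ((TP1 y.2.1 y.2.2 ((M : ℝ) / y.1)).filter (fun z => y.1 * z.1 ≤ m)).card := by
      exact_mod_cast h1
    rw [h2]
    push_cast
    rw [Finset.sum_mul]
    refine Finset.sum_le_sum fun y hy => ?_
    refine le_trans ?_ (hC y hy m M hm hmM)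
    have h3 : (TP1 y.2.1 y.2.2 ((M : ℝ) / y.1)).filter (fun z => y.1 * z.1 ≤ m) ⊆
        (TP1 y.2.1 y.2.2 M).filter (fun z => z.1 ≤ m) := by
      intro z hz
      obtain ⟨hz1, hz2⟩ := mem_filter.1 hz
      have hy1 : 1 ≤ y.1 := (hW y hy).1
      refine mem_filter.2 ⟨TP1_mono ?_ hz1, ?_⟩
      · apply div_le_self (by positivity)
        exact_mod_cast hy1
      · nlinarith
    exact_mod_cast card_le_card h3
  refine ⟨∑ y ∈ W, C y, fun m M hm hmM => ⟨key m M hm hmM, ?_⟩⟩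
  refine le_trans ?_ (key m M hm hmM)
  have h4 : ((TP t c M).filter (fun y => y.2.1 ≤ m)).card ≤
      ((TP t c M).filter (fun y => y.1 ≤ m)).card := by
    refine card_le_card_of_injOn (fun y => (y.2.1, y.1, y.2.2)) ?_ ?_
    · intro y hy
      obtain ⟨hy1, hy2⟩ := mem_filter.1 hy
      refine mem_filter.2 ⟨?_, hy2⟩
      unfold TP at hy1 ⊢
      simp only [mem_filter, mem_product, mem_Icc, mem_range] at hy1 ⊢
      obtain ⟨⟨h1, h2, h3⟩, h4, h5⟩ := hy1
      exact ⟨⟨h2, h1, h3⟩, by rw [mul_comm]; exact h4, h5⟩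
    · intro y _ y' _ h
      simp only [Prod.mk.injEq] at h
      exact Prod.ext h.2.1 (Prod.ext h.1 h.2.2)
  exact_mod_cast h4

end Pool.Agent.N814.LC8
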